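import Pool.Agent.helper23.TH.Spec

/-!
MP_26dbae_co, module TR: walks of ordered pairs give two disjoint colour isomorphic theta graphs.
-/

set_option autoImplicit false

namespace Pool.Agent.helper23.TH

/-- the vertices of the theta graph as ordered pairs -/
def TR_Phi {V : Type} {l p : ℕ} (P : Fin p → Fin (l + 1) → V × V) (t0 : Fin p) :
    Fin (pathT l).r ⊕ (Fin p × Fin (pathT l).v) → V × V
  | .inl x => if x.1 = 0 then P t0 0 else P t0 (Fin.last l)
  | .inr y => P y.1 ⟨y.2.1 + 1, by
      have : y.2.1 < l - 1 := y.2.2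
      omega⟩

theorem TR_lift {V : Type} {l p : ℕ} (hl : 2 ≤ l) (P : Fin p → Fin (l + 1) → V × V) (t0 : Fin p)
    (he : ∀ t t', P t 0 = P t' 0 ∧ P t (Fin.last l) = P t' (Fin.last l)) (t : Fin p) (i : ℕ)
    (hi : i ≤ l) : TR_Phi P t0 ((pathT l).lift t (pos l i)) = P t ⟨i, by omega⟩ := by
  unfold pos
  split_ifs with h1 h2
  · show P t _ = _
    congr 1
    apply Fin.ext
    show i - 1 + 1 = i
    omega
  · show (if (0 : Fin 2).1 = 0 then P t0 0 else P t0 (Fin.last l)) = _
    rw [if_pos (show (0 : Fin 2).1 = 0 from rfl), (he t0 t).1]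
    congr 1
    apply Fin.ext
    show 0 = i
    omega
  · show (if (1 : Fin 2).1 = 0 then P t0 0 else P t0 (Fin.last l)) = _
    rw [if_neg (by simp), (he t0 t).2]
    congr 1
    apply Fin.ext
    show l = i
    omega

theorem TR_Re_symm {V : Type} {u w : V × V} (h : Re u w) : Re w u := by
  rcases h with h | h | h | h
  · exact Or.inl h.symm
  · exact Or.inr (Or.inr (Or.inl h.symm))
  · exact Or.inr (Or.inl h.symm)
  · exact Or.inr (Or.inr (Or.inr h.symm))

theorem TR_disj {V : Type} {l p : ℕ} (hl : 2 ≤ l) (P : Fin p → Fin (l + 1) → V × V) (t0 : Fin p)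
    (he : ∀ t t', P t 0 = P t' 0 ∧ P t (Fin.last l) = P t' (Fin.last l))
    (h1 : ∀ t i j, i ≠ j → ¬ Re (P t i) (P t j))
    (h2 : ∀ t t', t ≠ t' → ∀ i j, ¬ (i = 0 ∧ j = 0) → ¬ (i = Fin.last l ∧ j = Fin.last l) →
      ¬ Re (P t i) (P t' j)) :
    ∀ z z' : Fin (pathT l).r ⊕ (Fin p × Fin (pathT l).v), z ≠ z' →
      ¬ Re (TR_Phi P t0 z) (TR_Phi P t0 z') := by
  have hmix : ∀ (x : Fin (pathT l).r) (y : Fin p × Fin (pathT l).v),
      ¬ Re (TR_Phi P t0 (.inl x)) (TR_Phi P t0 (.inr y)) := by
    intro x y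
    have hy : y.2.1 < l - 1 := y.2.2
    show ¬ Re (if x.1 = 0 then P t0 0 else P t0 (Fin.last l)) (P y.1 _)
    split_ifs with hx
    · rw [(he t0 y.1).1]
      apply h1
      intro h
      have := congrArg Fin.val h
      simp at this
    · rw [(he t0 y.1).2]
      apply h1
      intro h
      have := congrArg Fin.val h
      simp at this
      omega
  intro z z' hz
  rcases z with x | y <;> rcases z' with x' | y'
  · have hxx : x.1 ≠ x'.1 := fun h => hz (congrArg Sum.inl (Fin.ext h))
    have hx : x.1 < 2 := x.2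
    have hx' : x'.1 < 2 := x'.2
    have hl0 : (0 : Fin (l + 1)) ≠ Fin.last l := by
      intro h
      have := congrArg Fin.val h
      simp at this
      omega
    show ¬ Re (if x.1 = 0 then P t0 0 else P t0 (Fin.last l))
      (if x'.1 = 0 then P t0 0 else P t0 (Fin.last l))
    split_ifs with ha hb hb
    · omega
    · exact h1 t0 _ _ hl0
    · exact h1 t0 _ _ hl0.symm
    · omega
  · exact hmix x y'
  · exact fun h => hmix x' y (TR_Re_symm h)
  · have hy : y.2.1 < l - 1 := y.2.2
    have hy' : y'.2.1 < l - 1 := y'.2.2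
    show ¬ Re (P y.1 _) (P y'.1 _)
    by_cases ht : y.1 = y'.1
    · rw [ht]
      apply h1
      intro h
      have h3 := congrArg Fin.val h
      simp at h3
      exact hz (congrArg Sum.inr (Prod.ext ht (Fin.ext h3)))
    · apply h2 _ _ ht
      · rintro ⟨h, -⟩
        have := congrArg Fin.val h
        simp at this
      · rintro ⟨h, -⟩
        have := congrArg Fin.val h
        simp at this
        omega

theorem TR : TR_stmt := by
  intro V K χ hχ l p hl hp P hW he h1 h2
  have t0 : Fin p := ⟨0, by omega⟩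
  have hd := TR_disj hl P t0 he h1 h2
  have hne : ∀ t i, (P t i).1 ≠ (P t i).2 := by
    intro t i
    rcases Nat.lt_or_ge i.1 l with h | h
    · have := (hW t ⟨i.1, h⟩).1
      have e : (⟨i.1, h⟩ : Fin l).castSucc = i := Fin.ext rfl
      rwa [e] at this
    · have hi : i.1 = l := by omega
      have := (hW t ⟨l - 1, by omega⟩).2.1
      have e : (⟨l - 1, by omega⟩ : Fin l).succ = i := Fin.ext (by
        show l - 1 + 1 = i.1
        omega)
      rwa [e] at this
  have hPhi : ∀ z, (TR_Phi P t0 z).1 ≠ (TR_Phi P t0 z).2 := by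
    intro z
    rcases z with x | y
    · show (if x.1 = 0 then P t0 0 else P t0 (Fin.last l)).1 ≠
        (if x.1 = 0 then P t0 0 else P t0 (Fin.last l)).2
      split_ifs
      · exact hne _ _
      · exact hne _ _
    · exact hne _ _
  have hedge : ∀ (t : Fin p) (i : Fin (pathT l).e),
      χ (TR_Phi P t0 ((pathT l).lift t ((pathT l).ed i).1)).1
        (TR_Phi P t0 ((pathT l).lift t ((pathT l).ed i).2)).1 =
      χ (TR_Phi P t0 ((pathT l).lift t ((pathT l).ed i).1)).2
        (TR_Phi P t0 ((pathT l).lift t ((pathT l).ed i).2)).2 := by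
    intro t i
    have hi : i.1 < l := i.2
    have e1 := TR_lift hl P t0 he t i.1 (by omega)
    have e2 := TR_lift hl P t0 he t (i.1 + 1) (by omega)
    show χ (TR_Phi P t0 ((pathT l).lift t (pos l i.1))).1
        (TR_Phi P t0 ((pathT l).lift t (pos l (i.1 + 1)))).1 =
      χ (TR_Phi P t0 ((pathT l).lift t (pos l i.1))).2
        (TR_Phi P t0 ((pathT l).lift t (pos l (i.1 + 1)))).2
    rw [e1, e2]
    exact (hW t ⟨i.1, hi⟩).2.2.2.2.2.2
  refine ⟨fun z => (TR_Phi P t0 z).1, fun z => (TR_Phi P t0 z).2, ?_, ?_, ?_, ?_⟩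
  · intro z z' h
    by_contra hz
    exact hd z z' hz (Or.inl h)
  · intro z z' h
    by_contra hz
    exact hd z z' hz (Or.inr (Or.inr (Or.inr h)))
  · intro z z' h
    by_cases hz : z = z'
    · subst hz
      exact hPhi z h
    · exact hd z z' hz (Or.inr (Or.inl h))
  · rintro u v ⟨t, i, ⟨rfl, rfl⟩ | ⟨rfl, rfl⟩⟩
    · exact hedge t i
    · rw [hχ, hedge t i, hχ]

end Pool.Agent.helper23.TH
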